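import Pool.Agent.Helper74.NM.St

/-!
# Project NM, module BLK: one block in a configuration
-/

set_option autoImplicit false

namespace Pool.Agent.Helper29.NM

open Pool.Agent.Helper74 Pool.Agent.Helper74.NM

private theorem mid (hSTP : StSTP) {W : Type} (rk : W → Bool) (l : List (W × List W))
    (hl : ∀ g ∈ l, Rc rk g) :
    (∀ s τ, Tr (P rk) op (l.flatMap (gd rk)) (N rk false s) τ → τ = N rk false s ∨
      (∃ g ∈ l, ∃ s', s = g.1 :: s' ∧ τ = N rk true (g.2 ++ s')) ∨ BadIn rk τ) ∧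
    (∀ s τ, Tr (P rk) op (l.flatMap (gd rk)) (N rk true s) τ → τ = N rk true s ∨ BadIn rk τ) ∧
    (∀ σ τ, BadIn rk σ → Tr (P rk) op (l.flatMap (gd rk)) σ τ → BadIn rk τ) := by
  induction l with
  | nil =>
    refine ⟨fun s τ h => Or.inl ?_, fun s τ h => Or.inl ?_, fun σ τ hb h => ?_⟩
    · have h' : N rk false s = τ := h
      exact h'.symm
    · have h' : N rk true s = τ := h
      exact h'.symm
    · have h' : σ = τ := h
      exact h' ▸ hb
  | cons g l ih =>
    obtain ⟨i1, i2, i3⟩ := ih fun g' hg' => hl g' (List.mem_cons_of_mem _ hg')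
    obtain ⟨s1, s2, -⟩ := hSTP W rk g (hl g List.mem_cons_self)
    refine ⟨fun s τ h => ?_, fun s τ h => ?_, fun σ τ hb h => ?_⟩
    · rw [List.flatMap_cons, tr_append] at h
      obtain ⟨ρ, h1, h2⟩ := h
      rcases s1 false s ρ h1 with e | ⟨-, s', hs, e⟩ | hb
      · rw [e] at h2
        rcases i1 s τ h2 with e | ⟨g', hg', s', hs, e⟩ | hb
        · exact Or.inl e
        · exact Or.inr (Or.inl ⟨g', List.mem_cons_of_mem _ hg', s', hs, e⟩)
        · exact Or.inr (Or.inr hb)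
      · rw [e] at h2
        rcases i2 _ τ h2 with e' | hb
        · exact Or.inr (Or.inl ⟨g, List.mem_cons_self, s', hs, e'⟩)
        · exact Or.inr (Or.inr hb)
      · exact Or.inr (Or.inr (i3 ρ τ hb h2))
    · rw [List.flatMap_cons, tr_append] at h
      obtain ⟨ρ, h1, h2⟩ := h
      rcases s1 true s ρ h1 with e | ⟨hf, -⟩ | hb
      · rw [e] at h2
        exact i2 s τ h2
      · exact absurd hf (by decide)
      · exact Or.inr (i3 ρ τ hb h2)
    · rw [List.flatMap_cons, tr_append] at h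
      obtain ⟨ρ, h1, h2⟩ := h
      exact i3 ρ τ (s2 σ ρ hb h1) h2

private theorem blk_tr {W : Type} (rk : W → Bool) (l : List (W × List W)) (σ τ : List (Lt W))
    (h : Tr (P rk) op (blk rk l) σ τ) :
    ∃ a, Tr (P rk) op (l.flatMap (gd rk)) (.o (.b false) :: σ) (a :: τ) ∧
      P rk a (.k (.b true)) := by
  rw [blk, tr_cons] at h
  rcases h with ⟨-, h⟩ | ⟨x, σ', -, hx, -⟩
  · rw [tr_append] at h
    obtain ⟨ρ, h1, h2⟩ := h
    rw [tr_cons] at h2
    rcases h2 with ⟨ho, -⟩ | ⟨x, σ', e, hx, h3⟩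
    · exact ho.elim
    · rw [tr_nil] at h3
      subst h3
      subst e
      exact ⟨x, h1, hx⟩
  · exact absurd hx (not_p_o rk x _)

theorem hBLK (hSTP : StSTP) : StBLK := by
  intro W rk l hl
  obtain ⟨m1, -, m3⟩ := mid hSTP rk l hl
  constructor
  · intro s τ h
    obtain ⟨a, h1, h2⟩ := blk_tr rk l _ τ h
    rcases m1 s (a :: τ) h1 with e | ⟨g, hg, s', hs, e⟩ | hb
    · rw [N] at e
      obtain ⟨rfl, -⟩ := List.cons.inj e
      have h3 : (Zt.b false : Zt W) = Zt.b true := h2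
      simp at h3
    · rw [N] at e
      exact Or.inl ⟨g, hg, s', hs, (List.cons.inj e).2⟩
    · obtain ⟨i, σ', e, hb⟩ := hb
      refine Or.inr ?_
      rw [(List.cons.inj e).2]
      exact hb
  · intro σ τ hb h
    obtain ⟨a, h1, -⟩ := blk_tr rk l _ τ h
    obtain ⟨i, σ', e, hb'⟩ := m3 _ _ ⟨false, σ, rfl, hb⟩ h1
    rw [(List.cons.inj e).2]
    exact hb'

end Pool.Agent.Helper29.NM
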